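import Pool.Agent.H23.DM.TargetsI
import Pool.Agent.H97.SWX.CF0
import Pool.Agent.H81.THC.CS
import Pool.Agent.H81.THC.CSA
import Pool.Agent.H29.THC.CQ

/-!
# (TR) the transport of the sum over the midpoints
-/

set_option autoImplicit false

open NumberField Complex
open scoped nonZeroDivisors

namespace Pool.Agent.H13.DM.TR

open Pool.Agent.H25.HK Pool.Agent.H23.LB Pool.Agent.H23.LC
open Pool.Agent.H28.RC (Rep ft idl)
open Pool.Agent.H29.TC (Gn LC cq dvs AC MC)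
open Pool.Agent.H26.THC (eps eps_add eps_norm eps_of_mem smul_mem_FI)
open Pool.Agent.H97.SWX.CF (cmul cadd csub exists_ne mem_inf_mul inf_eq zero_mem_FI)
open Pool.Agent.H81.THC (fi_mono fi_le mk_nil)
open Pool.Agent.H23.DM

section ring

variable {R : Type} [CommRing R]

theorem conj_one {η : R → ℂ} (hη : MC η) {x : R} (hx : IsUnit x) :
    η x * (starRingEnd ℂ) (η x) = 1 := by
  rw [Complex.mul_conj', hη.unit x hx]
  norm_num

/-- the invariance of the values -/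
theorem inv_add {η : R → ℂ} (hη : MC η) {U T p : R} (hT : IsNilpotent T) (hp : IsNilpotent p)
    (h : p * T = 0) :
    η (U + T + p) * (starRingEnd ℂ) (η (U + T - p)) =
      η (U + p) * (starRingEnd ℂ) (η (U - p)) := by
  by_cases hU : IsUnit U
  · have h2 : IsUnit (U - p) := by
      rw [sub_eq_add_neg]; exact Pool.Agent.H29.TC.unit_add_nil hU hp.neg
    have h4 : IsUnit (U + T - p) := by
      rw [sub_eq_add_neg]
      exact Pool.Agent.H29.TC.unit_add_nil (Pool.Agent.H29.TC.unit_add_nil hU hT) hp.neg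
    have e : (U + T + p) * (U - p) = (U + p) * (U + T - p) := by
      linear_combination (-2) * h
    have e' : η (U + T + p) * η (U - p) = η (U + p) * η (U + T - p) := by
      rw [← hη.mul, ← hη.mul, e]
    have hb := conj_one hη h2
    have hd := conj_one hη h4
    linear_combination (-(η (U + T + p) * (starRingEnd ℂ) (η (U + T - p)))) * hb +
      ((starRingEnd ℂ) (η (U - p)) * (starRingEnd ℂ) (η (U + T - p))) * e' +
      (η (U + p) * (starRingEnd ℂ) (η (U - p))) * hd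
  · have h1 : ¬ IsUnit (U + p) := by
      intro h1
      apply hU
      have := Pool.Agent.H29.TC.unit_add_nil h1 hp.neg
      have e : U + p + -p = U := by ring
      rwa [e] at this
    have h3 : ¬ IsUnit (U + T + p) := by
      intro h3
      apply hU
      have := Pool.Agent.H29.TC.unit_add_nil (Pool.Agent.H29.TC.unit_add_nil h3 hp.neg) hT.neg
      have e : U + T + p + -p + -T = U := by ring
      rwa [e] at this
    rw [hη.zero _ h1, hη.zero _ h3, zero_mul, zero_mul]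

theorem scale {η : R → ℂ} (hη : MC η) {s Y p : R} (hs : IsUnit s) :
    η (s * Y + s * p) * (starRingEnd ℂ) (η (s * Y - s * p)) =
      η (Y + p) * (starRingEnd ℂ) (η (Y - p)) := by
  have e1 : s * Y + s * p = s * (Y + p) := by ring
  have e2 : s * Y - s * p = s * (Y - p) := by ring
  rw [e1, e2, hη.mul, hη.mul, map_mul]
  have h := conj_one hη hs
  linear_combination (η (Y + p) * (starRingEnd ℂ) (η (Y - p))) * h

end ring

/-- matching two sums -/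
theorem sum_match {A B : Type} [Nonempty B] (X : Finset A) (Y : Finset B) (P : A → Prop) (Q : B → Prop)
    (R : A → B → Prop) (F : A → ℂ) (G : B → ℂ)
    (h1 : ∀ u ∈ X, P u → ∃ z ∈ Y, Q z ∧ R u z)
    (h2 : ∀ z ∈ Y, Q z → ∃ u ∈ X, P u ∧ R u z)
    (h3 : ∀ u ∈ X, ∀ z ∈ Y, ∀ z' ∈ Y, R u z → R u z' → z = z')
    (h4 : ∀ u ∈ X, ∀ u' ∈ X, ∀ z ∈ Y, R u z → R u' z → u = u')
    (hF : ∀ u ∈ X, ¬ P u → F u = 0) (hG : ∀ z ∈ Y, ¬ Q z → G z = 0)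
    (h : ∀ u ∈ X, ∀ z ∈ Y, R u z → F u = G z) : ∑ u ∈ X, F u = ∑ z ∈ Y, G z := by
  classical
  have e1 : ∑ u ∈ X, F u = ∑ u ∈ X.filter P, F u := by
    refine (Finset.sum_subset (Finset.filter_subset _ _) ?_).symm
    intro u hu hn
    refine hF u hu (fun hp => hn ?_)
    exact Finset.mem_filter.mpr ⟨hu, hp⟩
  have e2 : ∑ z ∈ Y, G z = ∑ z ∈ Y.filter Q, G z := by
    refine (Finset.sum_subset (Finset.filter_subset _ _) ?_).symm
    intro z hz hn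
    refine hG z hz (fun hp => hn ?_)
    exact Finset.mem_filter.mpr ⟨hz, hp⟩
  rw [e1, e2]
  have h1' : ∀ u ∈ X.filter P, ∃ z ∈ Y, Q z ∧ R u z := by
    intro u hu
    obtain ⟨hu1, hu2⟩ := Finset.mem_filter.mp hu
    exact h1 u hu1 hu2
  choose! f hf using h1'
  refine Finset.sum_bij (fun u _ => f u) ?_ ?_ ?_ ?_
  · intro u hu
    obtain ⟨a, b, -⟩ := hf u hu
    exact Finset.mem_filter.mpr ⟨a, b⟩
  · intro u hu u' hu' he
    obtain ⟨a, -, c⟩ := hf u hu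
    obtain ⟨-, -, c'⟩ := hf u' hu'
    have he' : f u = f u' := he
    rw [← he'] at c'
    exact h4 u (Finset.mem_filter.mp hu).1 u' (Finset.mem_filter.mp hu').1 _ a c c'
  · intro z hz
    obtain ⟨hz1, hz2⟩ := Finset.mem_filter.mp hz
    obtain ⟨u, hu, hp, hr⟩ := h2 z hz1 hz2
    have hu' : u ∈ X.filter P := Finset.mem_filter.mpr ⟨hu, hp⟩
    obtain ⟨a, -, c⟩ := hf u hu'
    exact ⟨u, hu', h3 u hu _ a _ hz1 c hr⟩
  · intro u hu
    obtain ⟨a, -, c⟩ := hf u hu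
    exact h u (Finset.mem_filter.mp hu).1 _ a c

section NF

variable {K : Type} [Field K] [NumberField K]

theorem smul_mem {I : Ideal (𝓞 K)} {M : FI K} {a : 𝓞 K} {x : K} (ha : a ∈ I)
    (hx : x ∈ M) : (a : K) * x ∈ (I : FI K) * M :=
  FractionalIdeal.mul_mem_mul (FractionalIdeal.mem_coeIdeal_of_mem _ ha) hx

theorem smul_mem2 {I J : Ideal (𝓞 K)} {M : FI K} {a : 𝓞 K} {x : K} (ha : a ∈ I)
    (hx : x ∈ (J : FI K) * M) : (a : K) * x ∈ ((I * J : Ideal (𝓞 K)) : FI K) * M := by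
  have h := smul_mem ha hx
  rwa [← mul_assoc, ← FractionalIdeal.coeIdeal_mul] at h

theorem ci_add {j : Ideal (𝓞 K)} {M : FI K} {r x t : K} (ht : t ∈ (j : FI K) * M) :
    ci K j M r (x + t) = ci K j M r x := by
  have h : (x + t - r ∈ (j : FI K) * M) ↔ (x - r ∈ (j : FI K) * M) := by
    constructor
    · intro h
      have h1 := Submodule.sub_mem _ h ht
      have e : x + t - r - t = x - r := by ring
      rwa [e] at h1
    · intro h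
      have h1 := Submodule.add_mem _ h ht
      have e : x - r + t = x + t - r := by ring
      rwa [e] at h1
  unfold ci
  by_cases h1 : x - r ∈ (j : FI K) * M
  · rw [if_pos (h.mpr h1), if_pos h1]
  · rw [if_neg (fun h2 => h1 (h.mp h2)), if_neg h1]

theorem val {k : Ideal (𝓞 K)} (hk : k ≠ ⊥) {M : FI K} (hM : M ≠ 0) {x₀ : K} (hx : Gn k M x₀)
    (H : 𝓞 K ⧸ k → ℂ) {a : 𝓞 K} {x : K} (h : x - (a : K) * x₀ ∈ (k : FI K) * M) :
    cq k H M x₀ x = H (Ideal.Quotient.mk k a) :=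
  (Pool.Agent.H29.THC.pf_CQ K k H M x₀ hk hM hx).1 a x h

/-- the coordinate of an element of `j M` lies in `j` -/
theorem coord_mem {k j : Ideal (𝓞 K)} (hkj : k ≤ j) {M : FI K} {x₀ : K} (hx : Gn k M x₀)
    {a : 𝓞 K} {t : K} (h : t - (a : K) * x₀ ∈ (k : FI K) * M) (ht : t ∈ (j : FI K) * M) :
    a ∈ j := by
  rw [← hx.iff a j hkj]
  have h1 := Submodule.sub_mem _ ht (fi_mono hkj M h)
  have e : t - (t - (a : K) * x₀) = (a : K) * x₀ := by ring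
  rwa [e] at h1

theorem Mz_ne {e : Ideal (𝓞 K)} (he : e ≠ ⊥) : Mz K e ≠ 0 := by
  unfold Mz
  refine mul_ne_zero ?_ (inv_ne_zero (FractionalIdeal.coeIdeal_ne_zero.mpr he))
  refine FractionalIdeal.coeIdeal_ne_zero.mpr ?_
  rw [Ne, Ideal.span_singleton_eq_bot]
  exact two_ne_zero

theorem cancel_two {L : FI K} {w : K}
    (h : 2 * w ∈ ((Ideal.span {(2 : 𝓞 K)} : Ideal (𝓞 K)) : FI K) * L) : w ∈ L := by
  rw [FractionalIdeal.coeIdeal_span_singleton, FractionalIdeal.mem_singleton_mul] at h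
  obtain ⟨y, hy, hy2⟩ := h
  have e : (algebraMap (𝓞 K) K) 2 = 2 := map_ofNat _ 2
  rw [e] at hy2
  have h2 : (2 : K) ≠ 0 := two_ne_zero
  rwa [mul_left_cancel₀ h2 hy2]

theorem mul_delta {l e : Ideal (𝓞 K)} {M : FI K} (he : e ≠ ⊥) {δ : K}
    (hδ : 2 * δ ∈ ((l * e : Ideal (𝓞 K)) : FI K) * M) (J : Ideal (𝓞 K)) {z : K}
    (hz : z ∈ (J : FI K) * Mz K e) : z * δ ∈ ((l * J : Ideal (𝓞 K)) : FI K) * M := by
  apply cancel_two
  have h1 := FractionalIdeal.mul_mem_mul hz hδ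
  have hE : (e : FI K) * (e : FI K)⁻¹ = 1 :=
    mul_inv_cancel₀ (FractionalIdeal.coeIdeal_ne_zero.mpr he)
  have e1 : (J : FI K) * Mz K e * (((l * e : Ideal (𝓞 K)) : FI K) * M) =
      ((Ideal.span {(2 : 𝓞 K)} : Ideal (𝓞 K)) : FI K) *
        (((l * J : Ideal (𝓞 K)) : FI K) * M) := by
    unfold Mz
    rw [FractionalIdeal.coeIdeal_mul, FractionalIdeal.coeIdeal_mul]
    calc _ = ((Ideal.span {(2 : 𝓞 K)} : Ideal (𝓞 K)) : FI K) *
        ((l : FI K) * (J : FI K) * M) * ((e : FI K) * (e : FI K)⁻¹) := by ring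
      _ = _ := by rw [hE, mul_one]
  rw [e1] at h1
  have e2 : 2 * (z * δ) = z * (2 * δ) := by ring
  rw [e2]
  exact h1

theorem k_mul_Mz {k e k' : Ideal (𝓞 K)} (hek : k = e * k') (he : e ≠ ⊥) {M : FI K} {a b : K}
    (ha : a ∈ (k : FI K) * M) (hb : b ∈ Mz K e) : a * b ∈ (k' : FI K) * M := by
  have h1 := FractionalIdeal.mul_mem_mul ha hb
  have hE : (e : FI K) * (e : FI K)⁻¹ = 1 :=
    mul_inv_cancel₀ (FractionalIdeal.coeIdeal_ne_zero.mpr he)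
  have hk : (k : FI K) = (e : FI K) * (k' : FI K) := by
    rw [hek, FractionalIdeal.coeIdeal_mul]
  have e1 : (k : FI K) * M * Mz K e =
      ((Ideal.span {(2 : 𝓞 K)} * k' : Ideal (𝓞 K)) : FI K) * M := by
    rw [hk, FractionalIdeal.coeIdeal_mul]
    unfold Mz
    calc (e : FI K) * (k' : FI K) * M *
        (((Ideal.span {(2 : 𝓞 K)} : Ideal (𝓞 K)) : FI K) * (e : FI K)⁻¹) =
        ((Ideal.span {(2 : 𝓞 K)} : Ideal (𝓞 K)) : FI K) *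
        (k' : FI K) * M * ((e : FI K) * (e : FI K)⁻¹) := by ring
      _ = _ := by rw [hE, mul_one]
  rw [e1] at h1
  have h2 : Ideal.span {(2 : 𝓞 K)} * k' ≤ k' := Ideal.mul_le_right
  exact fi_mono h2 M h1

theorem nil_of {k : Ideal (𝓞 K)} {a : 𝓞 K} (h : a ∈ k.radical) :
    IsNilpotent (Ideal.Quotient.mk k a) := mk_nil h

variable (K) in
/-- the data -/
structure Dat (l k e k' : Ideal (𝓞 K)) (M : FI K) (x₀ ρ δ : K)
    (π s s' X₀ Y₀ : 𝓞 K) (y₂ : K) : Prop where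
  fp : FP l k M x₀
  py : PY k e k' π y₂
  er : e ≤ k.radical
  ρM : ρ ∈ M
  ρX : ρ - (X₀ : K) * x₀ ∈ (k : FI K) * M
  δl : 2 * δ ∈ ((l * e : Ideal (𝓞 K)) : FI K) * M
  ss : s * s' - 1 ∈ k
  δπ : δ - ((s * π : 𝓞 K) : K) * x₀ ∈ (k : FI K) * M
  YX : Y₀ - s' * X₀ ∈ k.radical

namespace Dat

variable {l k e k' : Ideal (𝓞 K)} {M : FI K} {x₀ ρ δ : K} {π s s' X₀ Y₀ : 𝓞 K} {y₂ : K}

theorem k_ne (h : Dat K l k e k' M x₀ ρ δ π s s' X₀ Y₀ y₂) : k ≠ ⊥ := h.fp.lk.k_ne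

theorem e_ne (h : Dat K l k e k' M x₀ ρ δ π s s' X₀ Y₀ y₂) : e ≠ ⊥ := by
  intro h0
  apply h.k_ne
  rw [h.py.ke, h0, Ideal.bot_mul]

theorem kk' (h : Dat K l k e k' M x₀ ρ δ π s s' X₀ Y₀ y₂) : k ≤ k' := by
  have h1 : e * k' ≤ k' := Ideal.mul_le_right
  rw [← h.py.ke] at h1
  exact h1

theorem kr (_h : Dat K l k e k' M x₀ ρ δ π s s' X₀ Y₀ y₂) : k ≤ k.radical := Ideal.le_radical

theorem kj (h : Dat K l k e k' M x₀ ρ δ π s s' X₀ Y₀ y₂) : k ≤ k.radical ⊓ k' :=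
  le_inf h.kr h.kk'

theorem hx (h : Dat K l k e k' M x₀ ρ δ π s s' X₀ Y₀ y₂) : Gn k M x₀ := by
  have h1 : l * k ≤ k := Ideal.mul_le_right
  have h2 : l * k ≠ ⊥ := by
    intro h0
    rcases Ideal.mul_eq_bot.mp h0 with h3 | h3
    · exact h.fp.lk.l_ne h3
    · exact h.k_ne h3
  exact (Pool.Agent.H29.THC.pf_CQ K (l * k) (fun _ => 0) M x₀ h2 h.fp.M_ne h.fp.gen).2.2 k h1

theorem lr (h : Dat K l k e k' M x₀ ρ δ π s s' X₀ Y₀ y₂) : l ⊔ k.radical = ⊤ := by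
  have h1 := sup_le_sup_left h.kr l
  rw [h.fp.lk.cop] at h1
  exact top_le_iff.mp h1

theorem lk' (h : Dat K l k e k' M x₀ ρ δ π s s' X₀ Y₀ y₂) : l ⊔ k' = ⊤ := by
  have h1 := sup_le_sup_left h.kk' l
  rw [h.fp.lk.cop] at h1
  exact top_le_iff.mp h1

theorem δM (h : Dat K l k e k' M x₀ ρ δ π s s' X₀ Y₀ y₂) : δ ∈ M := by
  have h1 := fi_le _ _ h.δπ
  have h2 := Submodule.add_mem _ h1 (smul_mem_FI M (s * π) h.hx.mem)
  have e : δ - ((s * π : 𝓞 K) : K) * x₀ + ((s * π : 𝓞 K) : K) * x₀ = δ := by ring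
  rwa [e] at h2

/-- the product lemma for the ideals -/
theorem lj (h : Dat K l k e k' M x₀ ρ δ π s s' X₀ Y₀ y₂) :
    (l * k.radical) ⊓ k' = l * (k.radical ⊓ k') := inf_eq h.lr h.lk'

theorem mem_lj (h : Dat K l k e k' M x₀ ρ δ π s s' X₀ Y₀ y₂) {t : K}
    (h1 : t ∈ ((l * k.radical : Ideal (𝓞 K)) : FI K) * M) (h2 : t ∈ (k' : FI K) * M) :
    t ∈ ((l * (k.radical ⊓ k') : Ideal (𝓞 K)) : FI K) * M := by
  rw [← h.lj]
  exact mem_inf_mul h.fp.M_ne h1 h2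

theorem j_le_r (_h : Dat K l k e k' M x₀ ρ δ π s s' X₀ Y₀ y₂) :
    l * (k.radical ⊓ k') ≤ l * k.radical := Ideal.mul_mono_right inf_le_left

/-! ### The values -/

theorem val_pair {x₁ : K} {L : FI K} (hk : k ≠ ⊥) (hL : L ≠ 0) (hx : Gn k L x₁)
    (η : 𝓞 K ⧸ k → ℂ) {a d : 𝓞 K} {x w : K} (hxa : x - (a : K) * x₁ ∈ (k : FI K) * L)
    (hwd : w - (d : K) * x₁ ∈ (k : FI K) * L) :
    cq k η L x₁ (x + w) * (starRingEnd ℂ) (cq k η L x₁ (x - w)) =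
      η (Ideal.Quotient.mk k a + Ideal.Quotient.mk k d) *
        (starRingEnd ℂ) (η (Ideal.Quotient.mk k a - Ideal.Quotient.mk k d)) := by
  have h1 : x + w - ((a + d : 𝓞 K) : K) * x₁ ∈ (k : FI K) * L := by
    have h := Submodule.add_mem _ hxa hwd
    have e : x - (a : K) * x₁ + (w - (d : K) * x₁) = x + w - ((a + d : 𝓞 K) : K) * x₁ := by
      rw [cadd]; ring
    rwa [e] at h
  have h2 : x - w - ((a - d : 𝓞 K) : K) * x₁ ∈ (k : FI K) * L := by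
    have h := Submodule.sub_mem _ hxa hwd
    have e : x - (a : K) * x₁ - (w - (d : K) * x₁) = x - w - ((a - d : 𝓞 K) : K) * x₁ := by
      rw [csub]; ring
    rwa [e] at h
  rw [val hk hL hx η h1, val hk hL hx η h2, map_add, map_sub]

/-- the product of `e` and `k'` -/
theorem pT (h : Dat K l k e k' M x₀ ρ δ π s s' X₀ Y₀ y₂) {T : 𝓞 K} (hT : T ∈ k.radical ⊓ k') :
    π * T ∈ k := by
  have hπ : π ∈ e := by
    rw [h.py.span]
    exact Ideal.mem_sup_left (Ideal.mem_span_singleton_self π)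
  have h1 := Ideal.mul_mem_mul hπ hT.2
  rw [← h.py.ke] at h1
  exact h1

theorem π_r (h : Dat K l k e k' M x₀ ρ δ π s s' X₀ Y₀ y₂) : π ∈ k.radical := by
  apply h.er
  rw [h.py.span]
  exact Ideal.mem_sup_left (Ideal.mem_span_singleton_self π)

/-- (A) the invariance on the side of `M` -/
theorem inv_M (h : Dat K l k e k' M x₀ ρ δ π s s' X₀ Y₀ y₂) (η : 𝓞 K ⧸ k → ℂ) (hη : MC η)
    {x : K} (hxM : x ∈ M) {t : K}
    (ht : t ∈ ((l * (k.radical ⊓ k') : Ideal (𝓞 K)) : FI K) * M) :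
    cm l k.radical M ρ δ (cq k η M x₀) (x + t) = cm l k.radical M ρ δ (cq k η M x₀) x := by
  obtain ⟨X, -, hX⟩ := h.hx.gen x hxM
  obtain ⟨T, -, hT⟩ := h.hx.gen t (fi_le _ _ ht)
  have hle : l * (k.radical ⊓ k') ≤ k.radical ⊓ k' := Ideal.mul_le_right
  have hTj : T ∈ k.radical ⊓ k' := coord_mem h.kj h.hx hT (fi_mono hle M ht)
  have h1 : x + t - ((X + T : 𝓞 K) : K) * x₀ ∈ (k : FI K) * M := by
    have h := Submodule.add_mem _ hX hT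
    have e : x - (X : K) * x₀ + (t - (T : K) * x₀) = x + t - ((X + T : 𝓞 K) : K) * x₀ := by
      rw [cadd]; ring
    rwa [e] at h
  unfold cm
  rw [ci_add (fi_mono h.j_le_r M ht), val_pair h.k_ne h.fp.M_ne h.hx η h1 h.δπ,
    val_pair h.k_ne h.fp.M_ne h.hx η hX h.δπ, map_add]
  rw [inv_add hη (mk_nil hTj.1)]
  · exact mk_nil (Ideal.mul_mem_left _ _ h.π_r)
  · rw [← map_mul, Ideal.Quotient.eq_zero_iff_mem, mul_assoc]
    exact Ideal.mul_mem_left _ _ (h.pT hTj)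

/-- (B) the invariance on the side of `2 e⁻¹` -/
theorem inv_Z (h : Dat K l k e k' M x₀ ρ δ π s s' X₀ Y₀ y₂) (η : 𝓞 K ⧸ k → ℂ) (hη : MC η)
    {z : K} (hz : z ∈ Mz K e) {t : K}
    (ht : t ∈ ((k.radical ⊓ k' : Ideal (𝓞 K)) : FI K) * Mz K e) :
    PhZ k k.radical e π Y₀ y₂ η (z + t) = PhZ k k.radical e π Y₀ y₂ η z := by
  have hM := Mz_ne h.e_ne
  obtain ⟨Z, -, hZ⟩ := h.py.gen.gen z hz
  obtain ⟨T, -, hT⟩ := h.py.gen.gen t (fi_le _ _ ht)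
  have hTj : T ∈ k.radical ⊓ k' := coord_mem h.kj h.py.gen hT ht
  have h1 : z + t - ((Z + T : 𝓞 K) : K) * y₂ ∈ (k : FI K) * Mz K e := by
    have h := Submodule.add_mem _ hZ hT
    have e : z - (Z : K) * y₂ + (t - (T : K) * y₂) = z + t - ((Z + T : 𝓞 K) : K) * y₂ := by
      rw [cadd]; ring
    rwa [e] at h
  unfold PhZ
  rw [ci_add (fi_mono inf_le_left _ ht), val h.k_ne hM h.py.gen _ h1,
    val h.k_ne hM h.py.gen _ hZ, map_add]
  rw [inv_add hη (mk_nil hTj.1) (mk_nil h.π_r)]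
  rw [← map_mul, Ideal.Quotient.eq_zero_iff_mem]
  exact h.pT hTj

/-! ### The matching -/

/-- the midpoint with the parameter `τ` -/
noncomputable def ut (x₀ ρ δ : K) (lam τ : 𝓞 K) : K := ρ + δ + ((τ * lam : 𝓞 K) : K) * x₀

/-- the position with the parameter `τ` -/
noncomputable def zt (π s s' X₀ : 𝓞 K) (y₂ : K) (τ : 𝓞 K) : K :=
  ((s' * (X₀ + s * π + τ) : 𝓞 K) : K) * y₂

/-- (F1) -/
theorem f1 (h : Dat K l k e k' M x₀ ρ δ π s s' X₀ Y₀ y₂) {lam : 𝓞 K} (hl : lam ∈ l)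
    (hl1 : lam - 1 ∈ k) {u : K} (hu : u - (ρ + δ) ∈ ((l * k.radical : Ideal (𝓞 K)) : FI K) * M) :
    ∃ τ ∈ k.radical, u - ut x₀ ρ δ lam τ ∈
      ((l * (k.radical ⊓ k') : Ideal (𝓞 K)) : FI K) * M := by
  obtain ⟨τ, -, hτ⟩ := h.hx.gen _ (fi_le _ _ hu)
  have hle : l * k.radical ≤ k.radical := Ideal.mul_le_right
  have hτr : τ ∈ k.radical := coord_mem h.kr h.hx hτ (fi_mono hle M hu)
  refine ⟨τ, hτr, h.mem_lj ?_ ?_⟩
  · have h1 : ((τ * lam : 𝓞 K) : K) * x₀ ∈ ((l * k.radical : Ideal (𝓞 K)) : FI K) * M := by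
      refine smul_mem ?_ h.hx.mem
      rw [mul_comm τ lam]
      exact Ideal.mul_mem_mul hl hτr
    have h2 := Submodule.sub_mem _ hu h1
    have e : u - (ρ + δ) - ((τ * lam : 𝓞 K) : K) * x₀ = u - ut x₀ ρ δ lam τ := by
      unfold ut; ring
    rwa [e] at h2
  · have h1 : ((τ * (lam - 1) : 𝓞 K) : K) * x₀ ∈ (k : FI K) * M :=
      smul_mem (Ideal.mul_mem_left _ _ hl1) h.hx.mem
    have h2 := Submodule.sub_mem _ hτ h1
    have e : u - (ρ + δ) - (τ : K) * x₀ - ((τ * (lam - 1) : 𝓞 K) : K) * x₀ =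
        u - ut x₀ ρ δ lam τ := by
      unfold ut
      rw [mul_sub, mul_one, csub]; ring
    rw [e] at h2
    exact fi_mono h.kk' M h2

/-- (F2) -/
theorem f2 (h : Dat K l k e k' M x₀ ρ δ π s s' X₀ Y₀ y₂) {lam : 𝓞 K} (hl : lam ∈ l)
    {τ τ' : 𝓞 K} (hτ : τ - τ' ∈ k.radical ⊓ k') :
    ut x₀ ρ δ lam τ - ut x₀ ρ δ lam τ' ∈
      ((l * (k.radical ⊓ k') : Ideal (𝓞 K)) : FI K) * M := by
  have h1 : (((τ - τ') * lam : 𝓞 K) : K) * x₀ ∈
      ((l * (k.radical ⊓ k') : Ideal (𝓞 K)) : FI K) * M := by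
    refine smul_mem ?_ h.hx.mem
    rw [mul_comm _ lam]
    exact Ideal.mul_mem_mul hl hτ
  have e : (((τ - τ') * lam : 𝓞 K) : K) * x₀ = ut x₀ ρ δ lam τ - ut x₀ ρ δ lam τ' := by
    unfold ut
    rw [sub_mul, csub]; ring
  rwa [e] at h1

theorem f2' (h : Dat K l k e k' M x₀ ρ δ π s s' X₀ Y₀ y₂) {lam : 𝓞 K}
    (hl1 : lam - 1 ∈ k) {τ τ' : 𝓞 K} (hτ : ut x₀ ρ δ lam τ - ut x₀ ρ δ lam τ' ∈
      ((l * (k.radical ⊓ k') : Ideal (𝓞 K)) : FI K) * M) : τ - τ' ∈ k.radical ⊓ k' := by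
  have e : (((τ - τ') * lam : 𝓞 K) : K) * x₀ = ut x₀ ρ δ lam τ - ut x₀ ρ δ lam τ' := by
    unfold ut
    rw [sub_mul, csub]; ring
  rw [← e] at hτ
  have hle : l * (k.radical ⊓ k') ≤ k.radical ⊓ k' := Ideal.mul_le_right
  have h1 := (h.hx.iff _ _ h.kj).mp (fi_mono hle M hτ)
  have h2 := Ideal.sub_mem _ h1 (Ideal.mul_mem_left _ (τ - τ') (h.kj hl1))
  have e2 : (τ - τ') * lam - (τ - τ') * (lam - 1) = τ - τ' := by ring
  rwa [e2] at h2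

/-- (F3) -/
theorem f3 (h : Dat K l k e k' M x₀ ρ δ π s s' X₀ Y₀ y₂) {z : K} (hz : z ∈ Mz K e)
    (hzr : z - (Y₀ : K) * y₂ ∈ (k.radical : FI K) * Mz K e) :
    ∃ τ ∈ k.radical, z - zt π s s' X₀ y₂ τ ∈
      ((k.radical ⊓ k' : Ideal (𝓞 K)) : FI K) * Mz K e := by
  obtain ⟨Z, -, hZ⟩ := h.py.gen.gen z hz
  have hZr : Z - Y₀ ∈ k.radical := by
    refine coord_mem h.kr h.py.gen ?_ hzr
    have e : z - (Y₀ : K) * y₂ - ((Z - Y₀ : 𝓞 K) : K) * y₂ = z - (Z : K) * y₂ := by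
      rw [csub]; ring
    rw [e]
    exact hZ
  refine ⟨s * Z - X₀ - s * π, ?_, ?_⟩
  · have e : s * Z - X₀ - s * π = s * (Z - Y₀) + s * (Y₀ - s' * X₀) + (s * s' - 1) * X₀ -
        s * π := by ring
    rw [e]
    refine Ideal.sub_mem _ (Ideal.add_mem _ (Ideal.add_mem _ ?_ ?_) ?_) ?_
    · exact Ideal.mul_mem_left _ _ hZr
    · exact Ideal.mul_mem_left _ _ h.YX
    · exact Ideal.mul_mem_right _ _ (h.kr h.ss)
    · exact Ideal.mul_mem_left _ _ h.π_r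
  · have h1 : (((s * s' - 1) * Z : 𝓞 K) : K) * y₂ ∈ (k : FI K) * Mz K e :=
      smul_mem (Ideal.mul_mem_right _ _ h.ss) h.py.gen.mem
    have h2 := Submodule.sub_mem _ hZ h1
    have e1 : s' * (X₀ + s * π + (s * Z - X₀ - s * π)) = (s * s' - 1) * Z + Z := by ring
    have e : z - (Z : K) * y₂ - (((s * s' - 1) * Z : 𝓞 K) : K) * y₂ =
        z - zt π s s' X₀ y₂ (s * Z - X₀ - s * π) := by
      unfold zt
      rw [e1, cadd]; ring
    rw [e] at h2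
    exact fi_mono h.kj _ h2

theorem zt_mem (h : Dat K l k e k' M x₀ ρ δ π s s' X₀ Y₀ y₂) (τ : 𝓞 K) :
    zt π s s' X₀ y₂ τ ∈ Mz K e := smul_mem_FI _ _ h.py.gen.mem

theorem ut_mem (h : Dat K l k e k' M x₀ ρ δ π s s' X₀ Y₀ y₂) (lam τ : 𝓞 K) :
    ut x₀ ρ δ lam τ ∈ M :=
  Submodule.add_mem _ (Submodule.add_mem _ h.ρM h.δM) (smul_mem_FI _ _ h.hx.mem)

/-- (F4) -/
theorem f4 (h : Dat K l k e k' M x₀ ρ δ π s s' X₀ Y₀ y₂) {τ : 𝓞 K} (hτ : τ ∈ k.radical) :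
    zt π s s' X₀ y₂ τ - (Y₀ : K) * y₂ ∈ (k.radical : FI K) * Mz K e := by
  have h1 : s' * (X₀ + s * π + τ) - Y₀ ∈ k.radical := by
    have e : s' * (X₀ + s * π + τ) - Y₀ = s' * s * π + s' * τ - (Y₀ - s' * X₀) := by ring
    rw [e]
    refine Ideal.sub_mem _ (Ideal.add_mem _ ?_ ?_) h.YX
    · exact Ideal.mul_mem_left _ _ h.π_r
    · exact Ideal.mul_mem_left _ _ hτ
  have h2 := smul_mem h1 h.py.gen.mem
  have e : ((s' * (X₀ + s * π + τ) - Y₀ : 𝓞 K) : K) * y₂ =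
      zt π s s' X₀ y₂ τ - (Y₀ : K) * y₂ := by
    unfold zt
    rw [csub]; ring
  rwa [e] at h2

/-- the midpoints lie in the residue class -/
theorem f4' (h : Dat K l k e k' M x₀ ρ δ π s s' X₀ Y₀ y₂) {lam : 𝓞 K} (hl : lam ∈ l)
    {τ : 𝓞 K} (hτ : τ ∈ k.radical) :
    ut x₀ ρ δ lam τ - (ρ + δ) ∈ ((l * k.radical : Ideal (𝓞 K)) : FI K) * M := by
  have h1 : ((τ * lam : 𝓞 K) : K) * x₀ ∈ ((l * k.radical : Ideal (𝓞 K)) : FI K) * M := by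
    refine smul_mem ?_ h.hx.mem
    rw [mul_comm τ lam]
    exact Ideal.mul_mem_mul hl hτ
  have e : ut x₀ ρ δ lam τ - (ρ + δ) = ((τ * lam : 𝓞 K) : K) * x₀ := by
    unfold ut; ring
  rwa [e]

/-- (F5) -/
theorem f5 (h : Dat K l k e k' M x₀ ρ δ π s s' X₀ Y₀ y₂) {τ τ' : 𝓞 K}
    (hτ : τ - τ' ∈ k.radical ⊓ k') : zt π s s' X₀ y₂ τ - zt π s s' X₀ y₂ τ' ∈
      ((k.radical ⊓ k' : Ideal (𝓞 K)) : FI K) * Mz K e := by
  have h1 : ((s' * (τ - τ') : 𝓞 K) : K) * y₂ ∈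
      ((k.radical ⊓ k' : Ideal (𝓞 K)) : FI K) * Mz K e :=
    smul_mem (Ideal.mul_mem_left _ _ hτ) h.py.gen.mem
  have e1 : s' * (τ - τ') = s' * (X₀ + s * π + τ) - s' * (X₀ + s * π + τ') := by ring
  have e : ((s' * (τ - τ') : 𝓞 K) : K) * y₂ =
      zt π s s' X₀ y₂ τ - zt π s s' X₀ y₂ τ' := by
    unfold zt
    rw [e1, csub]; ring
  rwa [e] at h1

theorem f5' (h : Dat K l k e k' M x₀ ρ δ π s s' X₀ Y₀ y₂) {τ τ' : 𝓞 K}
    (hτ : zt π s s' X₀ y₂ τ - zt π s s' X₀ y₂ τ' ∈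
      ((k.radical ⊓ k' : Ideal (𝓞 K)) : FI K) * Mz K e) : τ - τ' ∈ k.radical ⊓ k' := by
  have e1 : s' * (τ - τ') = s' * (X₀ + s * π + τ) - s' * (X₀ + s * π + τ') := by ring
  have e : ((s' * (τ - τ') : 𝓞 K) : K) * y₂ =
      zt π s s' X₀ y₂ τ - zt π s s' X₀ y₂ τ' := by
    unfold zt
    rw [e1, csub]; ring
  rw [← e] at hτ
  have h1 := (h.py.gen.iff _ _ h.kj).mp hτ
  have h2 := Ideal.sub_mem _ (Ideal.mul_mem_left _ s h1)
    (Ideal.mul_mem_right (τ - τ') _ (h.kj h.ss))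
  have e2 : s * (s' * (τ - τ')) - (s * s' - 1) * (τ - τ') = τ - τ' := by ring
  rwa [e2] at h2

theorem s_unit (h : Dat K l k e k' M x₀ ρ δ π s s' X₀ Y₀ y₂) :
    IsUnit (Ideal.Quotient.mk k s) := by
  refine IsUnit.of_mul_eq_one (Ideal.Quotient.mk k s') ?_
  rw [← map_mul, ← map_one (Ideal.Quotient.mk k), Ideal.Quotient.mk_eq_mk_iff_sub_mem]
  exact h.ss

/-- the coordinate of the midpoint -/
theorem coord_ut (h : Dat K l k e k' M x₀ ρ δ π s s' X₀ Y₀ y₂) {lam : 𝓞 K}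
    (hl1 : lam - 1 ∈ k) (τ : 𝓞 K) :
    ut x₀ ρ δ lam τ - ((X₀ + s * π + τ : 𝓞 K) : K) * x₀ ∈ (k : FI K) * M := by
  have h1 : ((τ * (lam - 1) : 𝓞 K) : K) * x₀ ∈ (k : FI K) * M :=
    smul_mem (Ideal.mul_mem_left _ _ hl1) h.hx.mem
  have h2 := Submodule.add_mem _ (Submodule.add_mem _ h.ρX h.δπ) h1
  have e : ρ - (X₀ : K) * x₀ + (δ - ((s * π : 𝓞 K) : K) * x₀) +
      ((τ * (lam - 1) : 𝓞 K) : K) * x₀ =
      ut x₀ ρ δ lam τ - ((X₀ + s * π + τ : 𝓞 K) : K) * x₀ := by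
    unfold ut
    rw [mul_sub, mul_one, csub, cadd, cadd]; ring
  rwa [e] at h2

/-- (F7) the values are equal -/
theorem f7 (h : Dat K l k e k' M x₀ ρ δ π s s' X₀ Y₀ y₂) {lam : 𝓞 K} (hl : lam ∈ l)
    (hl1 : lam - 1 ∈ k) {τ : 𝓞 K} (hτ : τ ∈ k.radical) (η : 𝓞 K ⧸ k → ℂ) (hη : MC η) :
    cm l k.radical M ρ δ (cq k η M x₀) (ut x₀ ρ δ lam τ) =
      PhZ k k.radical e π Y₀ y₂ η (zt π s s' X₀ y₂ τ) := by
  have hM := Mz_ne h.e_ne
  have hz : zt π s s' X₀ y₂ τ - ((s' * (X₀ + s * π + τ) : 𝓞 K) : K) * y₂ ∈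
      (k : FI K) * Mz K e := by
    have e1 : zt π s s' X₀ y₂ τ - ((s' * (X₀ + s * π + τ) : 𝓞 K) : K) * y₂ = 0 := by
      unfold zt; ring
    rw [e1]
    exact zero_mem_FI _
  unfold cm PhZ ci
  rw [if_pos (h.f4' hl hτ), if_pos (h.f4 hτ), one_mul, one_mul,
    val_pair h.k_ne h.fp.M_ne h.hx η (h.coord_ut hl1 τ) h.δπ,
    val h.k_ne hM h.py.gen _ hz]
  have e2 : Ideal.Quotient.mk k (X₀ + s * π + τ) =
      Ideal.Quotient.mk k s * Ideal.Quotient.mk k (s' * (X₀ + s * π + τ)) := by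
    rw [← map_mul, Ideal.Quotient.mk_eq_mk_iff_sub_mem]
    have e3 : X₀ + s * π + τ - s * (s' * (X₀ + s * π + τ)) =
        -((s * s' - 1) * (X₀ + s * π + τ)) := by ring
    rw [e3]
    exact Ideal.neg_mem_iff _ |>.mpr (Ideal.mul_mem_right _ _ h.ss)
  rw [e2, map_mul (Ideal.Quotient.mk k) s π]
  exact scale hη h.s_unit

/-- (F8) the difference of the frequencies -/
theorem f8 (h : Dat K l k e k' M x₀ ρ δ π s s' X₀ Y₀ y₂) {lam : 𝓞 K} (hl : lam ∈ l)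
    (hl1 : lam - 1 ∈ k) :
    δ * y₂ - ((s * lam : 𝓞 K) : K) * x₀ ∈ ((l * k' : Ideal (𝓞 K)) : FI K) * M := by
  have hcop : l ⊓ k' = l * k' := by
    have h1 := h.lk'
    exact (Ideal.mul_eq_inf_of_isCoprime (Ideal.isCoprime_iff_sup_eq.mpr h1)).symm
  rw [← hcop]
  refine mem_inf_mul h.fp.M_ne ?_ ?_
  · have h1 : y₂ ∈ ((⊤ : Ideal (𝓞 K)) : FI K) * Mz K e := by
      rw [FractionalIdeal.coeIdeal_top, one_mul]
      exact h.py.gen.mem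
    have h2 := mul_delta h.e_ne h.δl ⊤ h1
    rw [Ideal.mul_top, mul_comm y₂ δ] at h2
    have h3 : ((s * lam : 𝓞 K) : K) * x₀ ∈ (l : FI K) * M :=
      smul_mem (Ideal.mul_mem_left _ _ hl) h.hx.mem
    exact Submodule.sub_mem _ h2 h3
  · have h1 := k_mul_Mz h.py.ke h.e_ne h.δπ h.py.gen.mem
    obtain ⟨m, hm, hm2⟩ := h.py.dual
    have h2 : ((s * m : 𝓞 K) : K) * x₀ ∈ (k' : FI K) * M :=
      smul_mem (Ideal.mul_mem_left _ _ hm) h.hx.mem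
    have h3 : ((s * (lam - 1) : 𝓞 K) : K) * x₀ ∈ (k' : FI K) * M :=
      smul_mem (Ideal.mul_mem_left _ _ (h.kk' hl1)) h.hx.mem
    have h4 := Submodule.sub_mem _ (Submodule.add_mem _ h1 h2) h3
    have e : (δ - ((s * π : 𝓞 K) : K) * x₀) * y₂ + ((s * m : 𝓞 K) : K) * x₀ -
        ((s * (lam - 1) : 𝓞 K) : K) * x₀ = δ * y₂ - ((s * lam : 𝓞 K) : K) * x₀ := by
      rw [mul_sub s lam 1, mul_one, csub, cmul s π, cmul s m, ← hm2]; ring
    rwa [e] at h4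

/-- the difference of the frequencies times `τ` -/
theorem f8' (h : Dat K l k e k' M x₀ ρ δ π s s' X₀ Y₀ y₂) {lam : 𝓞 K} (hl : lam ∈ l)
    (hl1 : lam - 1 ∈ k) {τ : 𝓞 K} (hτ : τ ∈ k.radical) :
    ((τ * lam : 𝓞 K) : K) * x₀ - ((s' * τ : 𝓞 K) : K) * (δ * y₂) ∈
      ((l * (k.radical ⊓ k') : Ideal (𝓞 K)) : FI K) * M := by
  have h1 : ((lam * (τ * (s * s' - 1)) : 𝓞 K) : K) * x₀ ∈
      ((l * (k.radical ⊓ k') : Ideal (𝓞 K)) : FI K) * M :=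
    smul_mem (Ideal.mul_mem_mul hl (Ideal.mul_mem_left _ _ (h.kj h.ss))) h.hx.mem
  have h2 := smul_mem2 (Ideal.mul_mem_left _ s' hτ) (h.f8 hl hl1)
  have hle : k.radical * (l * k') ≤ l * (k.radical ⊓ k') := by
    have e : k.radical * (l * k') = l * (k.radical * k') := by ring
    rw [e]
    exact Ideal.mul_mono_right Ideal.mul_le_inf
  have h3 := Submodule.add_mem _ h1 (fi_mono hle M h2)
  have h4 := Submodule.neg_mem _ h3
  have e : -(((lam * (τ * (s * s' - 1)) : 𝓞 K) : K) * x₀ +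
      ((s' * τ : 𝓞 K) : K) * (δ * y₂ - ((s * lam : 𝓞 K) : K) * x₀)) =
      ((τ * lam : 𝓞 K) : K) * x₀ - ((s' * τ : 𝓞 K) : K) * (δ * y₂) := by
    simp only [cmul, csub, map_one]
    ring
  rwa [e] at h4

theorem L_ne (h : Dat K l k e k' M x₀ ρ δ π s s' X₀ Y₀ y₂) :
    ((l * (k.radical ⊓ k') : Ideal (𝓞 K)) : FI K) * M ≠ 0 := by
  refine mul_ne_zero ?_ h.fp.M_ne
  rw [FractionalIdeal.coeIdeal_ne_zero]
  intro h0
  rcases Ideal.mul_eq_bot.mp h0 with h3 | h3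
  · exact h.fp.lk.l_ne h3
  · apply h.k_ne
    rw [← le_bot_iff, ← h3]
    exact h.kj

/-- the exponentials -/
theorem f9 (h : Dat K l k e k' M x₀ ρ δ π s s' X₀ Y₀ y₂) {lam : 𝓞 K} (hl : lam ∈ l)
    (hl1 : lam - 1 ∈ k) {τ : 𝓞 K} (hτ : τ ∈ k.radical) {ξ : K}
    (hξ : ξ ∈ du K (((l * (k.radical ⊓ k') : Ideal (𝓞 K)) : FI K) * M)) :
    eps K (ut x₀ ρ δ lam τ * ξ) =
      eps K ((ρ + δ - ((s' * (X₀ + s * π) : 𝓞 K) : K) * (δ * y₂)) * ξ) *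
        eps K (zt π s s' X₀ y₂ τ * (δ * ξ)) := by
  have h1 := eps_of_mem h.L_ne (h.f8' hl hl1 hτ) hξ
  have e : ut x₀ ρ δ lam τ * ξ =
      (ρ + δ - ((s' * (X₀ + s * π) : 𝓞 K) : K) * (δ * y₂)) * ξ +
        (zt π s s' X₀ y₂ τ * (δ * ξ) +
          (((τ * lam : 𝓞 K) : K) * x₀ - ((s' * τ : 𝓞 K) : K) * (δ * y₂)) * ξ) := by
    unfold ut zt
    have e1 : s' * (X₀ + s * π + τ) = s' * (X₀ + s * π) + s' * τ := by ring
    rw [e1, cadd]
    ring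
  rw [e, eps_add, eps_add, h1, mul_one]

/-- the terms of the two sums -/
theorem term (h : Dat K l k e k' M x₀ ρ δ π s s' X₀ Y₀ y₂) {lam : 𝓞 K} (hl : lam ∈ l)
    (hl1 : lam - 1 ∈ k) {τ : 𝓞 K} (hτ : τ ∈ k.radical) {ξ : K}
    (hξ : ξ ∈ du K (((l * (k.radical ⊓ k') : Ideal (𝓞 K)) : FI K) * M)) (η : 𝓞 K ⧸ k → ℂ)
    (hη : MC η) {u z : K} (hu : u - ut x₀ ρ δ lam τ ∈
      ((l * (k.radical ⊓ k') : Ideal (𝓞 K)) : FI K) * M)
    (hz : z - zt π s s' X₀ y₂ τ ∈ ((k.radical ⊓ k' : Ideal (𝓞 K)) : FI K) * Mz K e) :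
    cm l k.radical M ρ δ (cq k η M x₀) u * eps K (u * ξ) =
      eps K ((ρ + δ - ((s' * (X₀ + s * π) : 𝓞 K) : K) * (δ * y₂)) * ξ) *
        (PhZ k k.radical e π Y₀ y₂ η z * eps K (z * (δ * ξ))) := by
  have hu1 : u = ut x₀ ρ δ lam τ + (u - ut x₀ ρ δ lam τ) := by ring
  have hz1 : z = zt π s s' X₀ y₂ τ + (z - zt π s s' X₀ y₂ τ) := by ring
  have e1 : cm l k.radical M ρ δ (cq k η M x₀) u =
      cm l k.radical M ρ δ (cq k η M x₀) (ut x₀ ρ δ lam τ) := by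
    conv_lhs => rw [hu1]
    exact h.inv_M η hη (h.ut_mem lam τ) hu
  have e2 : PhZ k k.radical e π Y₀ y₂ η z =
      PhZ k k.radical e π Y₀ y₂ η (zt π s s' X₀ y₂ τ) := by
    conv_lhs => rw [hz1]
    exact h.inv_Z η hη (h.zt_mem τ) hz
  have e3 : eps K (u * ξ) = eps K (ut x₀ ρ δ lam τ * ξ) := by
    conv_lhs => rw [hu1]
    rw [add_mul, eps_add, eps_of_mem h.L_ne hu hξ, mul_one]
  have e4 : eps K (z * (δ * ξ)) = eps K (zt π s s' X₀ y₂ τ * (δ * ξ)) := by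
    have h1 := mul_delta h.e_ne h.δl _ hz
    conv_lhs => rw [hz1]
    rw [add_mul, eps_add, ← mul_assoc (z - zt π s s' X₀ y₂ τ) δ ξ, eps_of_mem h.L_ne h1 hξ,
      mul_one]
  rw [e1, e2, e3, e4, h.f7 hl hl1 hτ η hη, h.f9 hl hl1 hτ hξ]
  ring

/-- (C) the transport -/
theorem tr (h : Dat K l k e k' M x₀ ρ δ π s s' X₀ Y₀ y₂) {lam : 𝓞 K} (hl : lam ∈ l)
    (hl1 : lam - 1 ∈ k) {ξ : K}
    (hξ : ξ ∈ du K (((l * (k.radical ⊓ k') : Ideal (𝓞 K)) : FI K) * M)) (η : 𝓞 K ⧸ k → ℂ)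
    (hη : MC η) (X X₂ : Finset K) (hX : Rep K (l * (k.radical ⊓ k')) M X)
    (hX₂ : Rep K (k.radical ⊓ k') (Mz K e) X₂) :
    ft K X (cm l k.radical M ρ δ (cq k η M x₀)) ξ =
      eps K ((ρ + δ - ((s' * (X₀ + s * π) : 𝓞 K) : K) * (δ * y₂)) * ξ) *
        ft K X₂ (PhZ k k.radical e π Y₀ y₂ η) (δ * ξ) := by
  have e1 : ft K X (cm l k.radical M ρ δ (cq k η M x₀)) ξ =
      ∑ u ∈ X, cm l k.radical M ρ δ (cq k η M x₀) u * eps K (u * ξ) := rfl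
  have e2 : ft K X₂ (PhZ k k.radical e π Y₀ y₂ η) (δ * ξ) =
      ∑ z ∈ X₂, PhZ k k.radical e π Y₀ y₂ η z * eps K (z * (δ * ξ)) := rfl
  rw [e1, e2, Finset.mul_sum]
  refine sum_match X X₂
    (fun u => u - (ρ + δ) ∈ ((l * k.radical : Ideal (𝓞 K)) : FI K) * M)
    (fun z => z - (Y₀ : K) * y₂ ∈ (k.radical : FI K) * Mz K e)
    (fun u z => ∃ τ ∈ k.radical, u - ut x₀ ρ δ lam τ ∈
      ((l * (k.radical ⊓ k') : Ideal (𝓞 K)) : FI K) * M ∧ z - zt π s s' X₀ y₂ τ ∈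
        ((k.radical ⊓ k' : Ideal (𝓞 K)) : FI K) * Mz K e) _ _ ?_ ?_ ?_ ?_ ?_ ?_ ?_
  · intro u _ hu
    obtain ⟨τ, hτ, h1⟩ := h.f1 hl hl1 hu
    obtain ⟨z, ⟨hz1, hz2⟩, -⟩ := hX₂.2 _ (h.zt_mem τ)
    have hz3 := Submodule.neg_mem _ hz2
    rw [neg_sub] at hz3
    refine ⟨z, hz1, ?_, τ, hτ, h1, hz3⟩
    have h2 := Submodule.add_mem _ (fi_mono inf_le_left _ hz3) (h.f4 hτ)
    have e : z - zt π s s' X₀ y₂ τ + (zt π s s' X₀ y₂ τ - (Y₀ : K) * y₂) =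
        z - (Y₀ : K) * y₂ := by ring
    rwa [e] at h2
  · intro z hz hzr
    obtain ⟨τ, hτ, h1⟩ := h.f3 (hX₂.1 z hz) hzr
    obtain ⟨u, ⟨hu1, hu2⟩, -⟩ := hX.2 _ (h.ut_mem lam τ)
    have hu3 := Submodule.neg_mem _ hu2
    rw [neg_sub] at hu3
    refine ⟨u, hu1, ?_, τ, hτ, hu3, h1⟩
    have h2 := Submodule.add_mem _ (fi_mono h.j_le_r _ hu3) (h.f4' hl hτ)
    have e : u - ut x₀ ρ δ lam τ + (ut x₀ ρ δ lam τ - (ρ + δ)) = u - (ρ + δ) := by ring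
    rwa [e] at h2
  · rintro u - z hz z' hz' ⟨τ, hτ, h1, h2⟩ ⟨τ', hτ', h1', h2'⟩
    have h3 := Submodule.sub_mem _ h1' h1
    have e : u - ut x₀ ρ δ lam τ' - (u - ut x₀ ρ δ lam τ) =
        ut x₀ ρ δ lam τ - ut x₀ ρ δ lam τ' := by ring
    rw [e] at h3
    have h4 := h.f5 (h.f2' hl1 h3)
    have h5 := Submodule.add_mem _ (Submodule.sub_mem _ h2 h2') h4
    have e' : z - zt π s s' X₀ y₂ τ - (z' - zt π s s' X₀ y₂ τ') +
        (zt π s s' X₀ y₂ τ - zt π s s' X₀ y₂ τ') = z - z' := by ring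
    rw [e'] at h5
    refine (hX₂.2 z (hX₂.1 z hz)).unique ⟨hz, ?_⟩ ⟨hz', h5⟩
    rw [sub_self]
    exact zero_mem_FI _
  · rintro u hu u' hu' z - ⟨τ, hτ, h1, h2⟩ ⟨τ', hτ', h1', h2'⟩
    have h3 := Submodule.sub_mem _ h2' h2
    have e : z - zt π s s' X₀ y₂ τ' - (z - zt π s s' X₀ y₂ τ) =
        zt π s s' X₀ y₂ τ - zt π s s' X₀ y₂ τ' := by ring
    rw [e] at h3
    have h4 := h.f2 hl (h.f5' h3)
    have h5 := Submodule.add_mem _ (Submodule.sub_mem _ h1 h1') h4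
    have e' : u - ut x₀ ρ δ lam τ - (u' - ut x₀ ρ δ lam τ') +
        (ut x₀ ρ δ lam τ - ut x₀ ρ δ lam τ') = u - u' := by ring
    rw [e'] at h5
    refine (hX.2 u (hX.1 u hu)).unique ⟨hu, ?_⟩ ⟨hu', h5⟩
    rw [sub_self]
    exact zero_mem_FI _
  · intro u _ hu
    unfold cm ci
    rw [if_neg hu, zero_mul, zero_mul]
  · intro z _ hz
    unfold PhZ ci
    rw [if_neg hz, zero_mul, zero_mul, mul_zero]
  · rintro u - z - ⟨τ, hτ, h1, h2⟩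
    exact h.term hl hl1 hτ hξ η hη h1 h2

end Dat

end NF

theorem pf_TR : D_TR := by
  intro K _ _ l k e k' M x₀ ρ δ π s s' X₀ Y₀ y₂ hFP hPY her hρ hρX hδ hss hδπ hY
  have h : Dat K l k e k' M x₀ ρ δ π s s' X₀ Y₀ y₂ :=
    ⟨hFP, hPY, her, hρ, hρX, hδ, hss, hδπ, hY⟩
  refine ⟨fun η hη x hx t ht => h.inv_M η hη hx ht, fun η hη z hz t ht => h.inv_Z η hη hz ht,
    fun ξ => eps K ((ρ + δ - ((s' * (X₀ + s * π) : 𝓞 K) : K) * (δ * y₂)) * ξ),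
    fun ξ => (eps_norm _).le, ?_⟩
  intro η hη X X₂ hX hX₂ ξ hξ
  have h1 : (1 : 𝓞 K) ∈ l ⊔ k := by rw [hFP.lk.cop]; trivial
  obtain ⟨lam, hl, v, hv, hlv⟩ := Submodule.mem_sup.mp h1
  have hl1 : lam - 1 ∈ k := by
    have e : lam - 1 = -v := by rw [← hlv]; ring
    rw [e]
    exact neg_mem hv
  exact h.tr hl hl1 hξ η hη X X₂ hX hX₂

end Pool.Agent.H13.DM.TR
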